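import Pool.Agent.helper33.SP.SpecC2S

/-!
# Project sp, VA3: forcing the inside of a gate
-/

namespace TP

open DP MeasureTheory

/-- Every site different from the centre has a neighbour which is closer to the centre. -/
theorem VA3_nbr {z u : V} {n : ℕ} (hz : Even (z.1 + z.2)) (hu : sd z u = n + 1) :
    ∃ w, Adj u w ∧ sd z w = n := by
  rw [Int.even_iff] at hz
  by_cases h1 : (z.1 - u.1).natAbs = (z.2 - u.2).natAbs
  · -- corner
    refine ⟨(if z.1 < u.1 then u.1 - 1 else u.1 + 1, if z.2 < u.2 then u.2 - 1 else u.2 + 1),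
      ⟨?_, Or.inr (Or.inr ?_)⟩, ?_⟩
    · unfold sd at hu ⊢
      dsimp only
      split_ifs <;> omega
    · rw [Int.even_iff]
      omega
    · unfold sd at hu ⊢
      dsimp only
      split_ifs <;> omega
  · by_cases h2 : (z.2 - u.2).natAbs < (z.1 - u.1).natAbs
    · refine ⟨(if z.1 < u.1 then u.1 - 1 else u.1 + 1, u.2), ⟨?_, Or.inr (Or.inl rfl)⟩, ?_⟩
      · unfold sd at hu ⊢
        dsimp only
        split_ifs <;> omega
      · unfold sd at hu ⊢
        dsimp only
        split_ifs <;> omega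
    · refine ⟨(u.1, if z.2 < u.2 then u.2 - 1 else u.2 + 1), ⟨?_, Or.inl rfl⟩, ?_⟩
      · unfold sd at hu ⊢
        dsimp only
        split_ifs <;> omega
      · unfold sd at hu ⊢
        dsimp only
        split_ifs <;> omega

/-- Connection to the centre. -/
theorem VA3_centre {z : V} (hz : Even (z.1 + z.2)) (W : Set V) (m : ℕ)
    (hW : ∀ w, sd z w < m → w ∈ W) : ∀ (n : ℕ) (u : V), sd z u = n → n ≤ m → u ∈ W → Con W u z := by
  intro n
  induction n with
  | zero =>
    intro u hu _ huW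
    rw [sd_eq_zero] at hu
    subst hu
    exact DP.Con.refl huW
  | succ n ih =>
    intro u hu hn huW
    obtain ⟨w, hw1, hw2⟩ := VA3_nbr hz hu
    have hwW : w ∈ W := hW w (by omega)
    exact (DP.Con.single huW hw1 hwW).trans (ih w hw2 (by omega) hwW)

theorem VA3 : VA3_stmt := by
  intro c z m n hz hm hmn hG
  obtain ⟨⟨p, hp, q, hq, ⟨u, hu, hpu⟩, ⟨v, hv, hqv⟩, hne⟩, -⟩ := hG
  have hin : ∀ (k : Bool) (w : V), w ∈ ann z m n → c w = ins c z m k w := by
    intro k w hw
    have hw1 : m ≤ sd z w := hw.1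
    unfold ins
    rw [if_neg (by omega)]
  have hsub : ann z m n ⊆ box z n := fun w hw => hw.2
  refine ⟨⟨u, hu, v, hv, ⟨p, hp, (Conn.congr (hin true)).1 hpu⟩,
    ⟨q, hq, (Conn.congr (hin true)).1 hqv⟩, ?_, ?_⟩, ?_⟩
  · intro h
    exact hne ((hpu.trans ((Conn.congr (hin true)).2 h)).trans hqv.symm)
  · have key : ∀ {p u : V}, p ∈ bd z m → Conn c true (ann z m n) p u →
        Conn (ins c z m true) true (box z n) u z := by
      intro p u hp hpu
      have hpu' := ((Conn.congr (hin true)).1 hpu).mono hsub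
      refine hpu'.symm.trans ?_
      refine VA3_centre hz _ m ?_ m p hp le_rfl hpu'.1
      intro w hw
      refine ⟨?_, ?_⟩
      · show sd z w ≤ n
        omega
      · unfold ins
        rw [if_pos hw]
    exact (key hp hpu).trans (key hq hqv).symm
  · rintro ⟨u, -, v, -, -, -, h1, h2⟩
    refine h1 (Con.mono ?_ h2)
    rintro w ⟨hw1, hw2⟩
    refine ⟨⟨?_, hw1⟩, hw2⟩
    by_contra hlt
    unfold ins at hw2
    rw [if_pos (by omega)] at hw2
    exact Bool.false_ne_true hw2

end TP
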