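import Pool.Agent.helper33.SP.SpecC2S
import Pool.Agent.helper51.SP.VA3

/-!
# Project sp, VA4: the deterministic key
-/

namespace TP

open DP MeasureTheory

theorem VA4_gate {c c' : V → Bool} {z : V} {m n : ℕ} (h : ∀ v ∈ ann z m n, c v = c' v)
    (hG : Gate c z m n) : Gate c' z m n := by
  have h' : ∀ v ∈ ann z m n, c' v = c v := fun v hv => (h v hv).symm
  obtain ⟨⟨p, hp, q, hq, ⟨u, hu, hpu⟩, ⟨v, hv, hqv⟩, hne⟩, hT⟩ := hG
  refine ⟨⟨p, hp, q, hq, ⟨u, hu, (Conn.congr h).1 hpu⟩, ⟨v, hv, (Conn.congr h).1 hqv⟩,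
    fun hc => hne ((Conn.congr h).2 hc)⟩, ?_⟩
  rintro ⟨p₁, hp₁, p₂, hp₂, p₃, hp₃, ⟨q₁, hq₁, g₁⟩, ⟨q₂, hq₂, g₂⟩, ⟨q₃, hq₃, g₃⟩, e₁, e₂, e₃⟩
  exact hT ⟨p₁, hp₁, p₂, hp₂, p₃, hp₃, ⟨q₁, hq₁, (Conn.congr h').1 g₁⟩,
    ⟨q₂, hq₂, (Conn.congr h').1 g₂⟩, ⟨q₃, hq₃, (Conn.congr h').1 g₃⟩,
    fun hc => e₁ ((Conn.congr h').2 hc), fun hc => e₂ ((Conn.congr h').2 hc),
    fun hc => e₃ ((Conn.congr h').2 hc)⟩

theorem VA4_hb {c c' : V → Bool} {z : V} {m n : ℕ} (h : ∀ v ∈ box z n, c v = c' v)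
    (hb' : hb c z m n) : hb c' z m n := by
  have ha : ∀ v ∈ ann z m n, c v = c' v := fun v hv => h v hv.2
  obtain ⟨u, hu, v, hv, ⟨p, hp, hpu⟩, ⟨q, hq, hqv⟩, hne, hc⟩ := hb'
  exact ⟨u, hu, v, hv, ⟨p, hp, (Conn.congr ha).1 hpu⟩, ⟨q, hq, (Conn.congr ha).1 hqv⟩,
    fun hc => hne ((Conn.congr ha).2 hc), (Conn.congr h).1 hc⟩

/-- `pmf (Fc i)` in terms of the colouring. -/
theorem VA4_pmf (i : ℕ) (b : V → Bool) : pmf (Fc i) b = pmc i (col b) := by
  unfold pmf pmc Fc Ev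
  by_cases h : hcross (col b) true 1 (2 * 2 ^ i) 0 (hh (2 ^ i))
  · rw [Set.indicator_of_mem (by exact h), if_pos h]
    norm_num
  · rw [Set.indicator_of_notMem (by exact h), if_neg h]
    norm_num

/-- Transfer for the crossing of the square. -/
theorem VA4_transfer (hUJ10 : UJ10_stmt) {i N : ℕ} {z : V} {c c' : V → Bool} {m n : ℕ}
    (hm : 1 ≤ m) (hmn : m < n) (hn : n ≤ 2 ^ N)
    (hR : box z (2 ^ N) ⊆ rect 1 (2 * 2 ^ i) 0 (hh (2 ^ i))) (hG : Gate c z m n)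
    (hc : ∀ v, m ≤ sd z v → c v = c' v) (hbb : hb c z m n ↔ hb c' z m n) :
    pmc i c = pmc i c' := by
  have hleft : ∀ u : V, u.1 = 1 → n ≤ sd z u := by
    intro u hu
    refine hn.trans ?_
    have h1 : ((z.1 - (2 ^ N : ℕ), z.2) : V) ∈ box z (2 ^ N) := by
      show sd z _ ≤ 2 ^ N
      unfold sd
      dsimp only
      omega
    have h2 := (hR h1).1
    dsimp only at h2
    unfold sd
    omega
  have hright : ∀ v : V, v.1 = 2 * 2 ^ i → n ≤ sd z v := by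
    intro v hv
    refine hn.trans ?_
    have h1 : ((z.1 + (2 ^ N : ℕ), z.2) : V) ∈ box z (2 ^ N) := by
      show sd z _ ≤ 2 ^ N
      unfold sd
      dsimp only
      omega
    have h2 := (hR h1).2.1
    dsimp only at h2
    unfold sd
    omega
  have key : hcross c true 1 (2 * 2 ^ i) 0 (hh (2 ^ i)) ↔
      hcross c' true 1 (2 * 2 ^ i) 0 (hh (2 ^ i)) := by
    have hbox : box z n ⊆ rect 1 (2 * 2 ^ i) 0 (hh (2 ^ i)) := by
      refine Set.Subset.trans ?_ hR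
      intro w hw
      exact le_trans hw hn
    constructor
    · rintro ⟨u, v, hu, hv, h⟩
      exact ⟨u, v, hu, hv, (hUJ10 c c' _ z u v m n hm hmn hG hc hbb hbox (hleft u hu)
        (hright v hv)).1 h⟩
    · rintro ⟨u, v, hu, hv, h⟩
      exact ⟨u, v, hu, hv, (hUJ10 c c' _ z u v m n hm hmn hG hc hbb hbox (hleft u hu)
        (hright v hv)).2 h⟩
  unfold pmc
  by_cases h : hcross c true 1 (2 * 2 ^ i) 0 (hh (2 ^ i))
  · rw [if_pos h, if_pos (key.1 h)]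
  · rw [if_neg h, if_neg fun h' => h (key.2 h')]

theorem VA4 (hGD1 : GD1_stmt) (hDUAL : DUAL_stmt) (hUJ9 : UJ9_stmt) (hUJ10 : UJ10_stmt) :
    VA4_stmt := by
  intro i N p h g z b b₁ b₂ hz hp hg hh1 hN hR hgts hb₁ hb₂ ht₁ ht₂
  have hze : Even (z.1 + z.2) := Int.even_iff.2 hz
  obtain ⟨hG1, hG2⟩ : Gate (col b) z (2 ^ (p - g - 1)) (2 ^ (p - 1)) ∧
    Gate (col b) z (2 ^ (p + h + 1)) (2 ^ (p + h + g + 1)) := hgts
  have hT1 : four (col b₁) z (2 ^ (p - g - 1)) (2 ^ (p + h + g + 1)) := ht₁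
  have hT2 : four (col b₂) z (2 ^ (p - g - 1)) (2 ^ (p + h + g + 1)) := ht₂
  have e0 : 1 ≤ 2 ^ (p - g - 1) := Nat.one_le_two_pow
  have e1 : 2 ^ (p - g - 1) < 2 ^ (p - 1) := Nat.pow_lt_pow_right (by norm_num) (by omega)
  have e2 : 2 ^ (p - 1) < 2 ^ p := Nat.pow_lt_pow_right (by norm_num) (by omega)
  have e3 : 2 ^ p < 2 ^ (p + h) := Nat.pow_lt_pow_right (by norm_num) (by omega)
  have e4 : 2 ^ (p + h) < 2 ^ (p + h + 1) := Nat.pow_lt_pow_right (by norm_num) (by omega)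
  have e5 : 2 ^ (p + h + 1) < 2 ^ (p + h + g + 1) := Nat.pow_lt_pow_right (by norm_num) (by omega)
  have e6 : 2 ^ (p + h + g + 1) ≤ 2 ^ N := Nat.pow_le_pow_right (by norm_num) (by omega)
  set a : ℕ := 2 ^ (p - g - 1)
  set n : ℕ := 2 ^ (p - 1)
  set m : ℕ := 2 ^ (p + h + 1)
  set n' : ℕ := 2 ^ (p + h + g + 1)
  have hbr1 : ∀ v, sd z (br v) ≤ sd z v + 1 := by
    intro v
    have h1 := sd_triangle z v (br v)
    have h2 := sd_br_le v
    omega
  have hbr2 : ∀ v, sd z v ≤ sd z (br v) + 1 := by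
    intro v
    have h1 := sd_triangle z (br v) v
    have h2 := sd_br_le v
    rw [sd_comm] at h2
    omega
  -- colourings near and far
  have c1n : ∀ v ∈ box z n, col b v = col b₁ v := by
    intro v hv
    have hv' : sd z v ≤ n := hv
    refine (hb₁ (br v) ?_).symm
    rintro ⟨h1, -⟩
    have := hbr1 v
    omega
  have c2n : ∀ v ∈ box z n, fl (col b) v = col b₂ v := by
    intro v hv
    have hv' : sd z v ≤ n := hv
    have h0 := hbr1 v
    have h1 : b₂ (br v) = flp (fI z p) b (br v) := by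
      refine hb₂ (br v) ?_
      rintro ⟨h1, -⟩
      omega
    have h2 : br v ∈ fI z p := by
      show sd z (br v) ≤ 2 ^ p
      omega
    show (!(b (br v))) = b₂ (br v)
    rw [h1]
    unfold flp
    rw [if_pos h2]
  have c1f : ∀ v, m ≤ sd z v → col b v = col b₁ v := by
    intro v hv
    refine (hb₁ (br v) ?_).symm
    rintro ⟨-, h1⟩
    have := hbr2 v
    omega
  have c2f : ∀ v, m ≤ sd z v → col b v = col b₂ v := by
    intro v hv
    have h0 := hbr2 v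
    have h1 : b₂ (br v) = flp (fI z p) b (br v) := by
      refine hb₂ (br v) ?_
      rintro ⟨-, h1⟩
      omega
    have h2 : br v ∉ fI z p := by
      intro h2
      have h3 : sd z (br v) ≤ 2 ^ p := h2
      omega
    show b (br v) = b₂ (br v)
    rw [h1]
    unfold flp
    rw [if_neg h2]
  -- gates
  have hG1₁ : Gate (col b₁) z a n := VA4_gate (fun v hv => c1n v hv.2) hG1
  have hG1₂ : Gate (col b₂) z a n :=
    VA4_gate (fun v hv => c2n v hv.2) ((hGD1 (col b) z a n hze e0 e1).2.2.2 hG1)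
  have hG2₁ : Gate (col b₁) z m n' := VA4_gate (fun v hv => c1f v hv.1) hG2
  have hG2₂ : Gate (col b₂) z m n' := VA4_gate (fun v hv => c2f v hv.1) hG2
  have l1 := hUJ9 (col b₁) z a n m n' e0 e1 (by omega) e5 hG1₁ hG2₁ hT1
  have l2 := hUJ9 (col b₂) z a n m n' e0 e1 (by omega) e5 hG1₂ hG2₂ hT2
  have k1 : hb (col b₁) z a n ↔ hb (col b) z a n :=
    ⟨VA4_hb fun v hv => (c1n v hv).symm, VA4_hb c1n⟩
  have k2 : hb (col b₂) z a n ↔ hb (fl (col b)) z a n :=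
    ⟨VA4_hb fun v hv => (c2n v hv).symm, VA4_hb c2n⟩
  have k3 := hDUAL (col b) z a n hze e0 e1 hG1
  obtain ⟨hT, hF⟩ := VA3 (col b) z m n' hze (by omega) e5 hG2
  have hins : ∀ (k : Bool) (v : V), m ≤ sd z v → col b v = ins (col b) z m k v := by
    intro k v hv
    unfold ins
    rw [if_neg (by omega)]
  rw [VA4_pmf, VA4_pmf]
  show pmc i (col b₁) + pmc i (col b₂) =
    pmc i (ins (col b) z m true) + pmc i (ins (col b) z m false)
  have t1 : ∀ k : Bool, (hb (col b₁) z m n' ↔ hb (ins (col b) z m k) z m n') →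
      pmc i (col b₁) = pmc i (ins (col b) z m k) := fun k hk =>
    VA4_transfer hUJ10 (by omega) e5 e6 hR hG2₁
      (fun v hv => (c1f v hv).symm.trans (hins k v hv)) hk
  have t2 : ∀ k : Bool, (hb (col b₂) z m n' ↔ hb (ins (col b) z m k) z m n') →
      pmc i (col b₂) = pmc i (ins (col b) z m k) := fun k hk =>
    VA4_transfer hUJ10 (by omega) e5 e6 hR hG2₂
      (fun v hv => (c2f v hv).symm.trans (hins k v hv)) hk
  by_cases hcase : hb (col b) z a n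
  · have s1 : hb (col b₁) z m n' := l1.1 (k1.2 hcase)
    have s2 : ¬ hb (col b₂) z m n' := fun h' => (k3.1 hcase) (k2.1 (l2.2 h'))
    rw [t1 true ⟨fun _ => hT, fun _ => s1⟩, t2 false ⟨fun h' => absurd h' s2, fun h' => absurd h' hF⟩]
  · have s1 : ¬ hb (col b₁) z m n' := fun h' => hcase (k1.1 (l1.2 h'))
    have s2 : hb (col b₂) z m n' := by
      refine l2.1 (k2.2 ?_)
      by_contra h'
      exact hcase (k3.2 h')
    rw [t1 false ⟨fun h' => absurd h' s1, fun h' => absurd h' hF⟩, t2 true ⟨fun _ => hT, fun _ => s2⟩]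
    exact add_comm _ _

end TP
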