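import Pool.Agent.helper2.SP.SpecTA
import Pool.Agent.helper13.DP.PO

/-!
# Project sp, TA5: adjacent sites of neighbouring circles are in the same order
-/

namespace TP.TA

open DP MeasureTheory

/-- The lifted position of `u`, a neighbour of `v` on the next circle. -/
def TA5_L (x : V) (r : ℕ) (v u : V) : ℤ :=
  if pos x r v = 8 * r ∧ pos x (r + 1) u ≤ 2 then pos x (r + 1) u + 8 * (r + 1)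
  else pos x (r + 1) u

theorem TA5_S0 {a b c d R P Q T : ℤ} (hR : 1 ≤ R)
    (b11 : -1 ≤ a - c) (b12 : a - c ≤ 1) (b13 : -1 ≤ b - d) (b14 : b - d ≤ 1)
    (b21 : -R ≤ a) (b22 : a ≤ R) (b23 : -R ≤ b) (b24 : b ≤ R)
    (h2 : a = c ∨ b = d ∨ (a + b) % 2 = 0) (a1 : a = R) (a2 : -R < b) (a3 : P = R + b)
    (hQ : (c = R + 1 ∧ -(R + 1) < d ∧ Q = R + 1 + d) ∨
      (d = R + 1 ∧ c < R + 1 ∧ Q = 3 * (R + 1) - c) ∨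
      (c = -(R + 1) ∧ d < R + 1 ∧ Q = 5 * (R + 1) - d) ∨
      (d = -(R + 1) ∧ -(R + 1) < c ∧ Q = 7 * (R + 1) + c))
    (hT : (P = 8 * R ∧ Q ≤ 2 ∧ T = Q + 8 * (R + 1)) ∨ (¬ (P = 8 * R ∧ Q ≤ 2) ∧ T = Q)) :
    0 < P ∧ P ≤ 2 * R ∧ (P % 2 = 1 → T = P + 1) ∧ P ≤ T ∧ (P < 2 * R → T ≤ P + 2) ∧ T ≤ P + 4 := by
  rcases hQ with ⟨b1, b2, b3⟩ | ⟨b1, b2, b3⟩ | ⟨b1, b2, b3⟩ | ⟨b1, b2, b3⟩ <;>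
    rcases hT with ⟨c1, c2, c3⟩ | ⟨c1, c2⟩ <;>
      omega

theorem TA5_S1 {a b c d R P Q T : ℤ} (hR : 1 ≤ R)
    (b11 : -1 ≤ a - c) (b12 : a - c ≤ 1) (b13 : -1 ≤ b - d) (b14 : b - d ≤ 1)
    (b21 : -R ≤ a) (b22 : a ≤ R) (b23 : -R ≤ b) (b24 : b ≤ R)
    (h2 : a = c ∨ b = d ∨ (a + b) % 2 = 0) (a1 : b = R) (a2 : a < R) (a3 : P = 3 * R - a)
    (hQ : (c = R + 1 ∧ -(R + 1) < d ∧ Q = R + 1 + d) ∨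
      (d = R + 1 ∧ c < R + 1 ∧ Q = 3 * (R + 1) - c) ∨
      (c = -(R + 1) ∧ d < R + 1 ∧ Q = 5 * (R + 1) - d) ∨
      (d = -(R + 1) ∧ -(R + 1) < c ∧ Q = 7 * (R + 1) + c))
    (hT : (P = 8 * R ∧ Q ≤ 2 ∧ T = Q + 8 * (R + 1)) ∨ (¬ (P = 8 * R ∧ Q ≤ 2) ∧ T = Q)) :
    2 * R < P ∧ P ≤ 4 * R ∧ (P % 2 = 1 → T = P + 3) ∧ P + 2 ≤ T ∧ (P < 4 * R → T ≤ P + 4) ∧ T ≤ P + 6 := by
  rcases hQ with ⟨b1, b2, b3⟩ | ⟨b1, b2, b3⟩ | ⟨b1, b2, b3⟩ | ⟨b1, b2, b3⟩ <;>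
    rcases hT with ⟨c1, c2, c3⟩ | ⟨c1, c2⟩ <;>
      omega

theorem TA5_S2 {a b c d R P Q T : ℤ} (hR : 1 ≤ R)
    (b11 : -1 ≤ a - c) (b12 : a - c ≤ 1) (b13 : -1 ≤ b - d) (b14 : b - d ≤ 1)
    (b21 : -R ≤ a) (b22 : a ≤ R) (b23 : -R ≤ b) (b24 : b ≤ R)
    (h2 : a = c ∨ b = d ∨ (a + b) % 2 = 0) (a1 : a = -R) (a2 : b < R) (a3 : P = 5 * R - b)
    (hQ : (c = R + 1 ∧ -(R + 1) < d ∧ Q = R + 1 + d) ∨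
      (d = R + 1 ∧ c < R + 1 ∧ Q = 3 * (R + 1) - c) ∨
      (c = -(R + 1) ∧ d < R + 1 ∧ Q = 5 * (R + 1) - d) ∨
      (d = -(R + 1) ∧ -(R + 1) < c ∧ Q = 7 * (R + 1) + c))
    (hT : (P = 8 * R ∧ Q ≤ 2 ∧ T = Q + 8 * (R + 1)) ∨ (¬ (P = 8 * R ∧ Q ≤ 2) ∧ T = Q)) :
    4 * R < P ∧ P ≤ 6 * R ∧ (P % 2 = 1 → T = P + 5) ∧ P + 4 ≤ T ∧ (P < 6 * R → T ≤ P + 6) ∧ T ≤ P + 8 := by
  rcases hQ with ⟨b1, b2, b3⟩ | ⟨b1, b2, b3⟩ | ⟨b1, b2, b3⟩ | ⟨b1, b2, b3⟩ <;>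
    rcases hT with ⟨c1, c2, c3⟩ | ⟨c1, c2⟩ <;>
      omega

theorem TA5_S3 {a b c d R P Q T : ℤ} (hR : 1 ≤ R)
    (b11 : -1 ≤ a - c) (b12 : a - c ≤ 1) (b13 : -1 ≤ b - d) (b14 : b - d ≤ 1)
    (b21 : -R ≤ a) (b22 : a ≤ R) (b23 : -R ≤ b) (b24 : b ≤ R)
    (h2 : a = c ∨ b = d ∨ (a + b) % 2 = 0) (a1 : b = -R) (a2 : -R < a) (a3 : P = 7 * R + a)
    (hQ : (c = R + 1 ∧ -(R + 1) < d ∧ Q = R + 1 + d) ∨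
      (d = R + 1 ∧ c < R + 1 ∧ Q = 3 * (R + 1) - c) ∨
      (c = -(R + 1) ∧ d < R + 1 ∧ Q = 5 * (R + 1) - d) ∨
      (d = -(R + 1) ∧ -(R + 1) < c ∧ Q = 7 * (R + 1) + c))
    (hT : (P = 8 * R ∧ Q ≤ 2 ∧ T = Q + 8 * (R + 1)) ∨ (¬ (P = 8 * R ∧ Q ≤ 2) ∧ T = Q)) :
    6 * R < P ∧ P ≤ 8 * R ∧ (P % 2 = 1 → T = P + 7) ∧ P + 6 ≤ T ∧ (P < 8 * R → T ≤ P + 8) ∧ T ≤ P + 10 := by
  rcases hQ with ⟨b1, b2, b3⟩ | ⟨b1, b2, b3⟩ | ⟨b1, b2, b3⟩ | ⟨b1, b2, b3⟩ <;>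
    rcases hT with ⟨c1, c2, c3⟩ | ⟨c1, c2⟩ <;>
      omega

theorem TA5_pos {x v : V} {r : ℕ} (hr : 1 ≤ r) (hv : sd x v = r) :
    (v.1 - x.1 = r ∧ -(r : ℤ) < v.2 - x.2 ∧ pos x r v = r + (v.2 - x.2)) ∨
      (v.2 - x.2 = r ∧ v.1 - x.1 < r ∧ pos x r v = 3 * r - (v.1 - x.1)) ∨
      (v.1 - x.1 = -(r : ℤ) ∧ v.2 - x.2 < r ∧ pos x r v = 5 * r - (v.2 - x.2)) ∨
      (v.2 - x.2 = -(r : ℤ) ∧ -(r : ℤ) < v.1 - x.1 ∧ pos x r v = 7 * r + (v.1 - x.1)) := by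
  have h0 := sd_le_iff.1 hv.le
  unfold sd at hv
  unfold pos
  split_ifs with h1 h2 h3
  · left
    exact ⟨h1.1, h1.2, rfl⟩
  · right; left
    refine ⟨h2, ?_, rfl⟩
    omega
  · right; right; left
    refine ⟨h3, ?_, rfl⟩
    omega
  · right; right; right
    refine ⟨?_, ?_, rfl⟩
    · omega
    · omega

theorem TA5_S {x v u : V} {r : ℕ} (hx : Even (x.1 + x.2)) (hr : 1 ≤ r) (hv : v ∈ bd x r)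
    (hu : u ∈ bd x (r + 1)) (h : Adj v u) :
    (0 < pos x r v ∧ pos x r v ≤ 2 * r ∧ (pos x r v % 2 = 1 → TA5_L x r v u = pos x r v + 1) ∧
      pos x r v ≤ TA5_L x r v u ∧ (pos x r v < 2 * r → TA5_L x r v u ≤ pos x r v + 2) ∧
      TA5_L x r v u ≤ pos x r v + 4) ∨
    (2 * r < pos x r v ∧ pos x r v ≤ 4 * r ∧
      (pos x r v % 2 = 1 → TA5_L x r v u = pos x r v + 3) ∧
      pos x r v + 2 ≤ TA5_L x r v u ∧ (pos x r v < 4 * r → TA5_L x r v u ≤ pos x r v + 4) ∧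
      TA5_L x r v u ≤ pos x r v + 6) ∨
    (4 * r < pos x r v ∧ pos x r v ≤ 6 * r ∧
      (pos x r v % 2 = 1 → TA5_L x r v u = pos x r v + 5) ∧
      pos x r v + 4 ≤ TA5_L x r v u ∧ (pos x r v < 6 * r → TA5_L x r v u ≤ pos x r v + 6) ∧
      TA5_L x r v u ≤ pos x r v + 8) ∨
    (6 * r < pos x r v ∧ pos x r v ≤ 8 * r ∧
      (pos x r v % 2 = 1 → TA5_L x r v u = pos x r v + 7) ∧
      pos x r v + 6 ≤ TA5_L x r v u ∧ (pos x r v < 8 * r → TA5_L x r v u ≤ pos x r v + 8) ∧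
      TA5_L x r v u ≤ pos x r v + 10) := by
  rw [Int.even_iff] at hx
  have hR : (1 : ℤ) ≤ r := by exact_mod_cast hr
  have hv' : sd x v = r := hv
  have hu' : sd x u = r + 1 := hu
  obtain ⟨h1, h2⟩ := h
  rw [Int.even_iff] at h2
  have hP := TA5_pos hr hv'
  have hQ := TA5_pos (by omega) hu'
  push_cast at hQ
  have b1 := sd_le_iff.1 h1.le
  have b2 := sd_le_iff.1 hv'.le
  have hT : (pos x r v = 8 * r ∧ pos x (r + 1) u ≤ 2 ∧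
      TA5_L x r v u = pos x (r + 1) u + 8 * (r + 1)) ∨
      (¬ (pos x r v = 8 * r ∧ pos x (r + 1) u ≤ 2) ∧ TA5_L x r v u = pos x (r + 1) u) := by
    unfold TA5_L
    split_ifs with h
    · exact Or.inl ⟨h.1, h.2, rfl⟩
    · exact Or.inr ⟨h, rfl⟩
  obtain ⟨⟨b11, b12⟩, b13, b14⟩ := b1
  obtain ⟨⟨b21, b22⟩, b23, b24⟩ := b2
  have h2' : v.1 - x.1 = u.1 - x.1 ∨ v.2 - x.2 = u.2 - x.2 ∨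
      (v.1 - x.1 + (v.2 - x.2)) % 2 = 0 := by omega
  have d1 : -1 ≤ v.1 - x.1 - (u.1 - x.1) := by push_cast at b12; omega
  have d2 : v.1 - x.1 - (u.1 - x.1) ≤ 1 := by push_cast at b11; omega
  have d3 : -1 ≤ v.2 - x.2 - (u.2 - x.2) := by push_cast at b14; omega
  have d4 : v.2 - x.2 - (u.2 - x.2) ≤ 1 := by push_cast at b13; omega
  have e1 : -(r : ℤ) ≤ v.1 - x.1 := by omega
  have e2 : v.1 - x.1 ≤ r := by omega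
  have e3 : -(r : ℤ) ≤ v.2 - x.2 := by omega
  have e4 : v.2 - x.2 ≤ r := by omega
  rcases hP with ⟨a1, a2, a3⟩ | ⟨a1, a2, a3⟩ | ⟨a1, a2, a3⟩ | ⟨a1, a2, a3⟩
  · exact Or.inl (TA5_S0 hR d1 d2 d3 d4 e1 e2 e3 e4 h2' a1 a2 a3 hQ hT)
  · exact Or.inr (Or.inl (TA5_S1 hR d1 d2 d3 d4 e1 e2 e3 e4 h2' a1 a2 a3 hQ hT))
  · exact Or.inr (Or.inr (Or.inl (TA5_S2 hR d1 d2 d3 d4 e1 e2 e3 e4 h2' a1 a2 a3 hQ hT)))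
  · exact Or.inr (Or.inr (Or.inr (TA5_S3 hR d1 d2 d3 d4 e1 e2 e3 e4 h2' a1 a2 a3 hQ hT)))

/-- Monotonicity. -/
theorem TA5_M {x v u v' u' : V} {r : ℕ} (hx : Even (x.1 + x.2)) (hr : 1 ≤ r) (hv : v ∈ bd x r)
    (hu : u ∈ bd x (r + 1)) (h : Adj v u) (hv' : v' ∈ bd x r) (hu' : u' ∈ bd x (r + 1))
    (h' : Adj v' u') (hlt : pos x r v < pos x r v') : TA5_L x r v u ≤ TA5_L x r v' u' := by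
  have s := TA5_S hx hr hv hu h
  have s' := TA5_S hx hr hv' hu' h'
  generalize pos x r v = P at *
  generalize pos x r v' = P' at *
  generalize TA5_L x r v u = T at *
  generalize TA5_L x r v' u' = T' at *
  rcases s with ⟨a1, a2, a3, a4, a5, a6⟩ | ⟨a1, a2, a3, a4, a5, a6⟩ | ⟨a1, a2, a3, a4, a5, a6⟩ |
    ⟨a1, a2, a3, a4, a5, a6⟩ <;>
  rcases s' with ⟨b1, b2, b3, b4, b5, b6⟩ | ⟨b1, b2, b3, b4, b5, b6⟩ |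
    ⟨b1, b2, b3, b4, b5, b6⟩ | ⟨b1, b2, b3, b4, b5, b6⟩ <;> omega

/-- Range. -/
theorem TA5_R {x v u : V} {r : ℕ} (hx : Even (x.1 + x.2)) (hr : 1 ≤ r) (hv : v ∈ bd x r)
    (hu : u ∈ bd x (r + 1)) (h : Adj v u) :
    2 ≤ TA5_L x r v u ∧ TA5_L x r v u ≤ 8 * (r + 1) + 2 ∧
      (TA5_L x r v u = pos x (r + 1) u ∨ TA5_L x r v u = pos x (r + 1) u + 8 * (r + 1)) := by
  have s := TA5_S hx hr hv hu h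
  refine ⟨by omega, by omega, ?_⟩
  unfold TA5_L
  split_ifs
  · exact Or.inr rfl
  · exact Or.inl rfl

/-- Distinct positions have distinct lifts. -/
theorem TA5_lt {Q₁ Q₂ T₁ T₂ M : ℤ} (j : Q₁ ≠ Q₂)
    (k1 : 1 ≤ Q₁ ∧ Q₁ ≤ M) (k2 : 1 ≤ Q₂ ∧ Q₂ ≤ M)
    (s1 : T₁ = Q₁ ∨ T₁ = Q₁ + M) (s2 : T₂ = Q₂ ∨ T₂ = Q₂ + M) (h : T₁ ≤ T₂) : T₁ < T₂ := by
  rcases s1 with rfl | rfl <;> rcases s2 with rfl | rfl <;> omega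

/-- The final integer bookkeeping: cyclic order is preserved by an increasing map into a window
of length `M` reduced modulo `M`. -/
theorem TA5_fin {P₁ P₂ P₃ T₁ T₂ T₃ Q₁ Q₂ Q₃ M : ℤ}
    (j12 : Q₁ ≠ Q₂) (j23 : Q₂ ≠ Q₃) (j13 : Q₁ ≠ Q₃)
    (k1 : 1 ≤ Q₁ ∧ Q₁ ≤ M) (k2 : 1 ≤ Q₂ ∧ Q₂ ≤ M) (k3 : 1 ≤ Q₃ ∧ Q₃ ≤ M)
    (r1 : 2 ≤ T₁) (r1' : T₁ ≤ M + 2) (r2 : 2 ≤ T₂) (r2' : T₂ ≤ M + 2) (r3 : 2 ≤ T₃)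
    (r3' : T₃ ≤ M + 2) (s1 : T₁ = Q₁ ∨ T₁ = Q₁ + M) (s2 : T₂ = Q₂ ∨ T₂ = Q₂ + M)
    (s3 : T₃ = Q₃ ∨ T₃ = Q₃ + M)
    (o12 : (P₁ < P₂ ∧ T₁ < T₂) ∨ (P₂ < P₁ ∧ T₂ < T₁))
    (o23 : (P₂ < P₃ ∧ T₂ < T₃) ∨ (P₃ < P₂ ∧ T₃ < T₂))
    (o13 : (P₁ < P₃ ∧ T₁ < T₃) ∨ (P₃ < P₁ ∧ T₃ < T₁)) :
    (if P₁ ≤ P₃ then P₁ ≤ P₂ ∧ P₂ ≤ P₃ else P₁ ≤ P₂ ∨ P₂ ≤ P₃) ↔
      (if Q₁ ≤ Q₃ then Q₁ ≤ Q₂ ∧ Q₂ ≤ Q₃ else Q₁ ≤ Q₂ ∨ Q₂ ≤ Q₃) := by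
  rcases s1 with rfl | rfl <;> rcases s2 with rfl | rfl <;> rcases s3 with rfl | rfl <;>
    split_ifs <;> constructor <;> intro h <;> omega

theorem TA5 : TA5_stmt := by
  intro x r v₁ v₂ v₃ u₁ u₂ u₃ hx hr hv₁ hv₂ hv₃ hu₁ hu₂ hu₃ ha₁ ha₂ ha₃ n12 n23 n13 m12 m23 m13
  have hr' : 1 ≤ r + 1 := by omega
  have i12 : pos x r v₁ ≠ pos x r v₂ := fun h => n12 (PO.2.1 x r v₁ v₂ hr hv₁ hv₂ h)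
  have i23 : pos x r v₂ ≠ pos x r v₃ := fun h => n23 (PO.2.1 x r v₂ v₃ hr hv₂ hv₃ h)
  have i13 : pos x r v₁ ≠ pos x r v₃ := fun h => n13 (PO.2.1 x r v₁ v₃ hr hv₁ hv₃ h)
  have j12 : pos x (r + 1) u₁ ≠ pos x (r + 1) u₂ := fun h =>
    m12 (PO.2.1 x (r + 1) u₁ u₂ hr' hu₁ hu₂ h)
  have j23 : pos x (r + 1) u₂ ≠ pos x (r + 1) u₃ := fun h =>
    m23 (PO.2.1 x (r + 1) u₂ u₃ hr' hu₂ hu₃ h)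
  have j13 : pos x (r + 1) u₁ ≠ pos x (r + 1) u₃ := fun h =>
    m13 (PO.2.1 x (r + 1) u₁ u₃ hr' hu₁ hu₃ h)
  have k1 := PO.1 x (r + 1) u₁ hr' hu₁
  have k2 := PO.1 x (r + 1) u₂ hr' hu₂
  have k3 := PO.1 x (r + 1) u₃ hr' hu₃
  push_cast at k1 k2 k3
  obtain ⟨r1, r1', r1''⟩ := TA5_R hx hr hv₁ hu₁ ha₁
  obtain ⟨r2, r2', r2''⟩ := TA5_R hx hr hv₂ hu₂ ha₂
  obtain ⟨r3, r3', r3''⟩ := TA5_R hx hr hv₃ hu₃ ha₃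
  have o12 : (pos x r v₁ < pos x r v₂ ∧ TA5_L x r v₁ u₁ < TA5_L x r v₂ u₂) ∨
      (pos x r v₂ < pos x r v₁ ∧ TA5_L x r v₂ u₂ < TA5_L x r v₁ u₁) := by
    rcases lt_or_gt_of_ne i12 with h | h
    · exact Or.inl ⟨h, TA5_lt j12 k1 k2 r1'' r2''
        (TA5_M hx hr hv₁ hu₁ ha₁ hv₂ hu₂ ha₂ h)⟩
    · exact Or.inr ⟨h, TA5_lt j12.symm k2 k1 r2'' r1''
        (TA5_M hx hr hv₂ hu₂ ha₂ hv₁ hu₁ ha₁ h)⟩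
  have o23 : (pos x r v₂ < pos x r v₃ ∧ TA5_L x r v₂ u₂ < TA5_L x r v₃ u₃) ∨
      (pos x r v₃ < pos x r v₂ ∧ TA5_L x r v₃ u₃ < TA5_L x r v₂ u₂) := by
    rcases lt_or_gt_of_ne i23 with h | h
    · exact Or.inl ⟨h, TA5_lt j23 k2 k3 r2'' r3''
        (TA5_M hx hr hv₂ hu₂ ha₂ hv₃ hu₃ ha₃ h)⟩
    · exact Or.inr ⟨h, TA5_lt j23.symm k3 k2 r3'' r2''
        (TA5_M hx hr hv₃ hu₃ ha₃ hv₂ hu₂ ha₂ h)⟩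
  have o13 : (pos x r v₁ < pos x r v₃ ∧ TA5_L x r v₁ u₁ < TA5_L x r v₃ u₃) ∨
      (pos x r v₃ < pos x r v₁ ∧ TA5_L x r v₃ u₃ < TA5_L x r v₁ u₁) := by
    rcases lt_or_gt_of_ne i13 with h | h
    · exact Or.inl ⟨h, TA5_lt j13 k1 k3 r1'' r3''
        (TA5_M hx hr hv₁ hu₁ ha₁ hv₃ hu₃ ha₃ h)⟩
    · exact Or.inr ⟨h, TA5_lt j13.symm k3 k1 r3'' r1''
        (TA5_M hx hr hv₃ hu₃ ha₃ hv₁ hu₁ ha₁ h)⟩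
  unfold onArc
  refine and_congr ⟨fun _ => hu₁, fun _ => hv₁⟩ (and_congr ⟨fun _ => hu₃, fun _ => hv₃⟩
    (and_congr ⟨fun _ => hu₂, fun _ => hv₂⟩ ?_))
  exact TA5_fin j12 j23 j13 k1 k2 k3 r1 r1' r2 r2' r3 r3' r1'' r2'' r3'' o12 o23 o13

end TP.TA
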