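import Pool.Agent.helper2.SP.SpecTA
import Pool.Agent.helper13.DP.PO

/-!
# Project sp, TA8: the neighbours of a crossing set on one side are connected
-/

namespace TP.TA

open DP MeasureTheory

theorem TA8_A {x z y u : V} {n : ℕ} (hn : 1 ≤ n) (h : nxt x n z y) (hu : u ∈ bd x n) (hne : u ≠ z) :
    onArc x n z u y := by
  obtain ⟨hz, hy, h⟩ := h
  have h1 := PO.1 x n z hn hz
  have h2 := PO.1 x n u hn hu
  have h3 : pos x n u ≠ pos x n z := fun h => hne (PO.2.1 x n u z hn hu hz h)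
  refine ⟨hz, hu, hy, ?_⟩
  split_ifs with h4
  · rcases h with h | ⟨h, h'⟩
    · omega
    · omega
  · rcases h with h | ⟨h, h'⟩
    · omega
    · omega

theorem TA8_B {x z y p : V} {n : ℕ} (hn : 1 ≤ n) (h : nxt x n z y) (hp : p ∈ bd x n) (hne : p ≠ z)
    (hne' : p ≠ y) : ¬ onArc x n z y p := by
  obtain ⟨hz, hy, h⟩ := h
  have h1 := PO.1 x n z hn hz
  have h2 := PO.1 x n p hn hp
  have h3 : pos x n p ≠ pos x n z := fun h => hne (PO.2.1 x n p z hn hp hz h)
  have h4 : pos x n p ≠ pos x n y := fun h => hne' (PO.2.1 x n p y hn hp hy h)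
  rintro ⟨-, -, -, h5⟩
  split_ifs at h5 with h6
  · rcases h with h | ⟨h, h'⟩
    · omega
    · omega
  · rcases h with h | ⟨h, h'⟩
    · omega
    · omega

theorem TA8_A' {x z y u : V} {n : ℕ} (hn : 1 ≤ n) (h : nxt x n y z) (hu : u ∈ bd x n) :
    onArc x n z y u := by
  obtain ⟨hy, hz, h⟩ := h
  have h1 := PO.1 x n z hn hz
  have h2 := PO.1 x n u hn hu
  refine ⟨hz, hy, hu, ?_⟩
  split_ifs with h4
  · rcases h with h | ⟨h, h'⟩
    · omega
    · omega
  · rcases h with h | ⟨h, h'⟩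
    · omega
    · omega

theorem TA8_B' {x z y p : V} {n : ℕ} (hn : 1 ≤ n) (h : nxt x n y z) (hp : p ∈ bd x n) (hne : p ≠ z)
    (hne' : p ≠ y) : ¬ onArc x n z p y := by
  obtain ⟨hy, hz, h⟩ := h
  have h1 := PO.1 x n z hn hz
  have h2 := PO.1 x n p hn hp
  have h3 : pos x n p ≠ pos x n z := fun h => hne (PO.2.1 x n p z hn hp hz h)
  have h4 : pos x n p ≠ pos x n y := fun h => hne' (PO.2.1 x n p y hn hp hy h)
  rintro ⟨-, -, -, h5⟩
  split_ifs at h5 with h6
  · rcases h with h | ⟨h, h'⟩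
    · omega
    · omega
  · rcases h with h | ⟨h, h'⟩
    · omega
    · omega

/-- A connection stays in its component. -/
theorem TA8_comp {W : Set V} {y v : V} (h : Con W y v) : Con {w | Con W y w} y v := by
  refine DP.Con.induct h (fun a => Con {w | Con W y w} y a) (DP.Con.refl (DP.Con.refl h.1)) ?_
  intro a b _ hb hab ha ih
  exact ih.tail hab (ha.tail hab hb)

theorem TA8 (hTA7 : TA7_stmt) : TA8_stmt := by
  intro x m n K z y z' y' hx hm hmn hK hKc hnx hz hz' hy hy' hp hu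
  obtain ⟨p, hpb, hpc⟩ := hp
  obtain ⟨u, hub, huc⟩ := hu
  by_contra hcon
  set B : Set V := nbd (ann x m n) K with hB
  have hBann : B ⊆ ann x m n := fun w hw => hw.1
  have hKB : Disjoint K B := Set.disjoint_left.2 fun w hw hw' => hw'.2.1 hw
  set L : Set V := {w | Con B y w} with hL
  set L' : Set V := {w | Con B y' w} with hL'
  have hLB : L ⊆ B := fun w hw => DP.Con.mem_right hw
  have hLB' : L' ⊆ B := fun w hw => DP.Con.mem_right hw
  have hdis : Disjoint L L' := Set.disjoint_left.2 fun w hw hw' =>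
    hcon (DP.Con.trans hw (DP.Con.symm hw'))
  have hKL : Disjoint K L := hKB.mono_right hLB
  have hKL' : Disjoint K L' := hKB.mono_right hLB'
  have cL : Con L p y := (TA8_comp hpc).symm
  have cL' : Con L' y' u := TA8_comp huc
  have cK : Con K z' z := hKc z' hz' z hz
  have hpL : p ∈ L := hpc
  have huL' : u ∈ L' := huc
  have hyL : y ∈ L := DP.Con.refl hy
  have hyL' : y' ∈ L' := DP.Con.refl hy'
  have hm1 : 1 ≤ n := by omega
  have huz : u ≠ z := fun h => Set.disjoint_left.1 hKL' hz (h ▸ huL')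
  have hpz : p ≠ z' := fun h => Set.disjoint_left.1 hKL hz' (h ▸ hpL)
  have hpy : p ≠ y' := fun h => Set.disjoint_left.1 hdis hpL (h ▸ hyL')
  rcases hnx with ⟨h1, h2⟩ | ⟨h1, h2⟩
  · have key := hTA7 x m n K L L' z' p y' z y u hx hm hmn hK (hLB.trans hBann)
      (hLB'.trans hBann) hKL hdis hKL' h2.1 hpb h2.2.1 h1.1 h1.2.1 hub cK cL cL'
    exact TA8_B hm h2 hpb hpz hpy (key.2 (TA8_A hm1 h1 hub huz))
  · have key := hTA7 x m n K L' L z' y' p z u y hx hm hmn hK (hLB'.trans hBann)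
      (hLB.trans hBann) hKL' hdis.symm hKL h2.2.1 h2.1 hpb h1.2.1 hub h1.1 cK cL' cL
    exact TA8_B' hm h2 hpb hpz hpy (key.2 (TA8_A' hm1 h1 hub))

end TP.TA
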